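import Pool.Agent.R929.DK.Main

/-!
# Smooth (pluri)(anti)canonical sections
-/

open Module

namespace Pool.Agent.R929.DM

open Pool.Agent.W539.DI Pool.Agent.R929.DH Pool.Agent.R929.DK

/-- The cohomology with its Hodge decomposition of a compact Kähler manifold of pure dimension `d`,
which may be disconnected or empty. -/
structure Hodge (d : ℕ) where
  V : Type
  [grp : AddCommGroup V]
  [mod : Module ℂ V]
  [fin : FiniteDimensional ℂ V]
  /-- the classes of type `(p, q)` -/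
  H : ℤ × ℤ → Submodule ℂ V
  int : DirectSum.IsInternal H
  van : ∀ p q : ℤ, (p < 0 ∨ q < 0 ∨ (d : ℤ) < p ∨ (d : ℤ) < q) → H (p, q) = ⊥

attribute [instance] Hodge.grp Hodge.mod Hodge.fin

/-- The pairs `(p, q)` with `0 ≤ p, q ≤ d`. -/
noncomputable def box (d : ℕ) : Finset (ℤ × ℤ) := Finset.Icc (0 : ℤ) d ×ˢ Finset.Icc (0 : ℤ) d

/-- The Euler characteristic `∑ (-1)^{p+q} h^{p,q}`. -/
noncomputable def Hodge.euler {d : ℕ} (A : Hodge d) : ℤ :=
  ∑ x ∈ box d, ((x.1 + x.2).negOnePow : ℤ) * (finrank ℂ (A.H x) : ℤ)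

/-- The isomorphism of Hochschild homology of an equivalence of derived categories: it preserves
the grading by `p - q`. -/
structure HH {d : ℕ} (A B : Hodge d) where
  φ : A.V ≃ₗ[ℂ] B.V
  hodge : ∀ p q : ℤ, Submodule.map (φ : A.V →ₗ[ℂ] B.V) (⨆ k : ℤ, A.H (p + k, q + k)) =
    ⨆ k : ℤ, B.H (p + k, q + k)

variable {n : ℕ}

/-- The Euler characteristic `∑ (-1)^{p+q} h^{p,q}`. -/
noncomputable def euler (X : KRing n) : ℤ :=
  ∑ x ∈ box n, ((x.1 + x.2).negOnePow : ℤ) * (X.h x.1 x.2 : ℤ)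

/-- The sum `∑ (-1)^{p+q} (2p - n)^2 h^{p,q}`. -/
noncomputable def moment (X : KRing n) : ℤ :=
  ∑ x ∈ box n, ((x.1 + x.2).negOnePow : ℤ) * ((2 * x.1 - n) ^ 2 * (X.h x.1 x.2 : ℤ))

/-- Let `ε = 1` (or `ε = -1`) and suppose that the line bundle `M = K ^ (ε m)` is generated by its
sections. The data:

* `chern`: the number `∫ c₁ c_{n-1}`, with the formula of Libgober and Wood
  `∑ (-1)^{p+q} (p - n/2)^2 h^{p,q} = (n / 12) c_n + (1 / 6) c₁ c_{n-1}`;
* `D k`, `1 ≤ k ≤ n`: the intersection of `k` general members of `|M|`, which is a smooth subvariety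
  of dimension `n - k` (or empty);
* the adjunction formula `∫ c₁(M) c_{n-1}(X) = ∑_{k ≥ 1} χ(D k)`, where `c₁(M) = - ε m c₁(X)`. -/
structure Sections (X : KRing n) (ε : ℤ) (m : ℕ) where
  chern : ℤ
  libgoberWood : 3 * moment X = n * euler X + 2 * chern
  D : ∀ k : ℕ, Hodge (n - k)
  adjunction : -ε * m * chern = ∑ k ∈ Finset.Icc 1 n, (D k).euler

end Pool.Agent.R929.DM
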