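import Pool.Agent.R929.DM.Defs

/-!
# The Euler characteristic is a derived invariant
-/

open Module

namespace Pool.Agent.R929.DM

open Pool.Agent.W539.DI Pool.Agent.R929.DH Pool.Agent.R929.DK

variable {d : ℕ}

/-- The part of degree of parity `e`. -/
noncomputable def Hodge.part (A : Hodge d) (e : ℤ) : Submodule ℂ A.V :=
  ⨆ (x : ℤ × ℤ) (_ : Even (x.1 + x.2 + e)), A.H x

theorem Hodge.part_eq (A : Hodge d) (e : ℤ) :
    A.part e = ⨆ x ∈ (box d).filter (fun x => Even (x.1 + x.2 + e)), A.H x := by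
  apply le_antisymm
  · refine iSup₂_le fun x hx => ?_
    by_cases hb : x ∈ box d
    · exact le_iSup₂ (f := fun x (_ : x ∈ (box d).filter (fun x => Even (x.1 + x.2 + e))) =>
        A.H x) x (Finset.mem_filter.2 ⟨hb, hx⟩)
    · have : A.H x = ⊥ := by
        obtain ⟨p, q⟩ := x
        refine A.van p q ?_
        by_contra h
        push Not at h
        exact hb (Finset.mem_product.2 ⟨Finset.mem_Icc.2 ⟨h.1, h.2.2.1⟩,
          Finset.mem_Icc.2 ⟨h.2.1, h.2.2.2⟩⟩)
      rw [this]
      exact bot_le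
  · refine iSup₂_le fun x hx => ?_
    exact le_iSup₂ (f := fun (x : ℤ × ℤ) (_ : Even (x.1 + x.2 + e)) => A.H x) x
      (Finset.mem_filter.1 hx).2

theorem Hodge.finrank_part (A : Hodge d) (e : ℤ) :
    finrank ℂ (A.part e) =
      ∑ x ∈ (box d).filter (fun x => Even (x.1 + x.2 + e)), finrank ℂ (A.H x) := by
  rw [A.part_eq]
  exact finrank_iSup_finset _ A.int.submodule_iSupIndep _

theorem Hodge.euler_eq (A : Hodge d) :
    A.euler = (finrank ℂ (A.part 0) : ℤ) - finrank ℂ (A.part 1) := by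
  classical
  rw [A.finrank_part, A.finrank_part]
  unfold Hodge.euler
  rw [← Finset.sum_filter_add_sum_filter_not (box d) (fun x => Even (x.1 + x.2 + 0))]
  have h1 : (box d).filter (fun x => ¬ Even (x.1 + x.2 + 0)) =
      (box d).filter (fun x => Even (x.1 + x.2 + 1)) := by
    refine Finset.filter_congr fun x _ => ?_
    rw [add_zero, Int.even_add_one]
  rw [h1, sub_eq_add_neg]
  push_cast
  rw [← Finset.sum_neg_distrib]
  congr 1
  · refine Finset.sum_congr rfl fun x hx => ?_
    have hx' := (Finset.mem_filter.1 hx).2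
    rw [add_zero] at hx'
    rw [Int.negOnePow_even _ hx']
    simp
  · refine Finset.sum_congr rfl fun x hx => ?_
    have hx' := (Finset.mem_filter.1 hx).2
    rw [Int.even_add_one, Int.not_even_iff_odd] at hx'
    rw [Int.negOnePow_odd _ hx']
    simp

theorem HH.part {A B : Hodge d} (Ψ : HH A B) (e : ℤ) :
    Submodule.map (Ψ.φ : A.V →ₗ[ℂ] B.V) (A.part e) = B.part e := by
  have h : ∀ C : Hodge d, C.part e =
      ⨆ (x : ℤ × ℤ) (_ : Even (x.1 + x.2 + e)), ⨆ k : ℤ, C.H (x.1 + k, x.2 + k) := by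
    intro C
    apply le_antisymm
    · refine iSup₂_le fun x hx => ?_
      refine le_trans ?_ (le_iSup₂ (f := fun (x : ℤ × ℤ) (_ : Even (x.1 + x.2 + e)) =>
        ⨆ k : ℤ, C.H (x.1 + k, x.2 + k)) x hx)
      have := le_iSup (fun k : ℤ => C.H (x.1 + k, x.2 + k)) 0
      simpa using this
    · refine iSup₂_le fun x hx => iSup_le fun k => ?_
      refine le_iSup₂ (f := fun (x : ℤ × ℤ) (_ : Even (x.1 + x.2 + e)) => C.H x)
        (x.1 + k, x.2 + k) ?_
      have : x.1 + k + (x.2 + k) + e = x.1 + x.2 + e + 2 * k := by ring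
      show Even (x.1 + k + (x.2 + k) + e)
      rw [this]
      exact hx.add (even_two_mul k)
  rw [h A, h B]
  simp only [Submodule.map_iSup]
  refine iSup_congr fun x => iSup_congr fun _ => ?_
  rw [← Submodule.map_iSup]
  exact Ψ.hodge x.1 x.2

theorem HH.euler {A B : Hodge d} (Ψ : HH A B) : A.euler = B.euler := by
  rw [A.euler_eq, B.euler_eq, ← Ψ.part 0, ← Ψ.part 1, LinearEquiv.finrank_map_eq,
    LinearEquiv.finrank_map_eq]

variable {n : ℕ}

/-- The underlying bigraded space. -/
def toHodge (X : KRing n) : Hodge n where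
  V := X.R
  H := X.H
  int := DirectSum.Decomposition.isInternal X.H
  van p q h := by
    by_cases h1 : p < 0 ∨ q < 0
    · exact X.van p q h1
    · exact X.van_top (by omega)

theorem euler_toHodge (X : KRing n) : (toHodge X).euler = euler X := rfl

/-- The underlying isomorphism. -/
def toHH {X Y : KRing n} (Φ : FM X Y) : HH (toHodge X) (toHodge Y) where
  φ := Φ.φ
  hodge := Φ.hodge

theorem euler_inv {X Y : KRing n} (Φ : FM X Y) : euler X = euler Y := by
  rw [← euler_toHodge, ← euler_toHodge]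
  exact (toHH Φ).euler

/-- The moment is a derived invariant. -/
theorem moment_inv {X Y : KRing n} (Φ : FM X Y) {ε : ℤ} (hε : ε ≠ 0) {m : ℕ} (hm : m ≠ 0)
    (A : Sections X ε m) (B : Sections Y ε m)
    (h : ∀ k ∈ Finset.Icc 1 n, Nonempty (HH (A.D k) (B.D k))) : moment X = moment Y := by
  have h1 := A.adjunction
  have h2 := B.adjunction
  have h3 : ∑ k ∈ Finset.Icc 1 n, (A.D k).euler = ∑ k ∈ Finset.Icc 1 n, (B.D k).euler :=
    Finset.sum_congr rfl fun k hk => by
      obtain ⟨Ψ⟩ := h k hk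
      exact Ψ.euler
  rw [h3, ← h2] at h1
  have h4 : (-ε * m : ℤ) ≠ 0 := mul_ne_zero (neg_ne_zero.2 hε) (by exact_mod_cast hm)
  have h5 := mul_left_cancel₀ h4 h1
  have h6 := A.libgoberWood
  have h7 := B.libgoberWood
  rw [h5, euler_inv Φ, ← h7] at h6
  omega

end Pool.Agent.R929.DM
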