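import Pool.Agent.R929.DM.Euler

/-!
# Fivefolds
-/

open Module

namespace Pool.Agent.R929.DM

open Pool.Agent.W539.DI Pool.Agent.R929.DH Pool.Agent.R929.DK

theorem h_dual {n : ℕ} (Z : KRing n) (p q : ℤ) : Z.h (n - q) (n - p) = Z.h p q := by
  by_cases h : p + q ≤ n
  · obtain ⟨j, hj⟩ := Int.eq_ofNat_of_zero_le (show 0 ≤ (n : ℤ) - p - q by omega)
    have := Z.h_symm (p := p) (q := q) j (by omega)
    rw [this]
    congr 1 <;> omega
  · obtain ⟨j, hj⟩ := Int.eq_ofNat_of_zero_le (show 0 ≤ p + q - n by omega)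
    have := Z.h_symm (p := n - q) (q := n - p) j (by omega)
    rw [this]
    congr 1 <;> omega

/-- It is enough to compare the Hodge numbers in one half of the lower triangle. -/
theorem reduce {n : ℕ} {X Y : KRing n}
    (h : ∀ p q : ℕ, q ≤ p → p + q ≤ n → X.h p q = Y.h p q) (p q : ℤ) : X.h p q = Y.h p q := by
  have h1 : ∀ p q : ℤ, q ≤ p → p + q ≤ n → X.h p q = Y.h p q := by
    intro p q hqp hpq
    by_cases hneg : q < 0
    · rw [X.h_neg (Or.inr hneg), Y.h_neg (Or.inr hneg)]
    · obtain ⟨a, ha⟩ := Int.eq_ofNat_of_zero_le (show 0 ≤ p by omega)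
      obtain ⟨b, hb⟩ := Int.eq_ofNat_of_zero_le (show 0 ≤ q by omega)
      rw [ha, hb]
      exact h a b (by omega) (by omega)
  have h2 : ∀ p q : ℤ, p + q ≤ n → X.h p q = Y.h p q := by
    intro p q hpq
    by_cases hqp : q ≤ p
    · exact h1 p q hqp hpq
    · rw [X.h_swap, Y.h_swap]
      exact h1 q p (by omega) (by omega)
  by_cases hpq : p + q ≤ n
  · exact h2 p q hpq
  · rw [← h_dual X, ← h_dual Y]
    exact h2 _ _ (by omega)

theorem five_all {X Y : KRing 5} (Φ : FM X Y) (h10 : X.h 1 0 = Y.h 1 0)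
    (h20 : X.h 2 0 = Y.h 2 0) (hm : moment X = moment Y) (p q : ℤ) : X.h p q = Y.h p q := by
  obtain ⟨-, a2⟩ := Φ.hodge_sums 5 0 rfl
  obtain ⟨b1, b2⟩ := Φ.hodge_sums 4 1 rfl
  obtain ⟨c1, c2⟩ := Φ.hodge_sums 3 2 rfl
  rw [X.sum_first _ _ (by norm_num) (by norm_num), Y.sum_first _ _ (by norm_num) (by norm_num)]
    at a2 b1 b2 c1 c2
  norm_num at a2 b1 b2 c1 c2
  have z1 : ∀ Z : KRing 5, Z.h 3 (-2) = 0 := fun Z => Z.h_neg (by norm_num)
  have z2 : ∀ Z : KRing 5, Z.h 2 (-1) = 0 := fun Z => Z.h_neg (by norm_num)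
  rw [z1, z1] at a2
  rw [z2, z2] at b2
  rw [h10] at c2
  have d1 := Φ.total_all 4 0 {0, 1} (by
    intro k hk
    simp only [Finset.mem_insert, Finset.mem_singleton, not_or] at hk
    push_cast
    omega)
  have d2 := Φ.total_all 2 0 {0, 1, 2, 3} (by
    intro k hk
    simp only [Finset.mem_insert, Finset.mem_singleton, not_or] at hk
    push_cast
    omega)
  have d3 := Φ.total_all 0 0 {0, 1, 2, 3, 4, 5} (by
    intro k hk
    simp only [Finset.mem_insert, Finset.mem_singleton, not_or] at hk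
    push_cast
    omega)
  rw [Finset.sum_insert (by simp), Finset.sum_singleton, Finset.sum_insert (by simp),
    Finset.sum_singleton] at d1
  rw [Finset.sum_insert (by simp), Finset.sum_insert (by simp), Finset.sum_insert (by simp),
    Finset.sum_singleton, Finset.sum_insert (by simp), Finset.sum_insert (by simp),
    Finset.sum_insert (by simp), Finset.sum_singleton] at d2
  rw [Finset.sum_insert (by simp), Finset.sum_insert (by simp), Finset.sum_insert (by simp),
    Finset.sum_insert (by simp), Finset.sum_insert (by simp), Finset.sum_singleton,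
    Finset.sum_insert (by simp), Finset.sum_insert (by simp), Finset.sum_insert (by simp),
    Finset.sum_insert (by simp), Finset.sum_insert (by simp), Finset.sum_singleton] at d3
  norm_num at d1 d2 d3
  have s51 : ∀ Z : KRing 5, Z.h 5 1 = Z.h 4 0 := fun Z => by
    have := h_dual Z 4 0
    norm_num at this
    exact this
  have s42 : ∀ Z : KRing 5, Z.h 4 2 = Z.h 3 1 := fun Z => by
    have := h_dual Z 3 1
    norm_num at this
    exact this
  have s53 : ∀ Z : KRing 5, Z.h 5 3 = Z.h 2 0 := fun Z => by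
    have := h_dual Z 2 0
    norm_num at this
    exact this
  have s55 : ∀ Z : KRing 5, Z.h 5 5 = Z.h 0 0 := fun Z => by
    have := h_dual Z 0 0
    norm_num at this
    exact this
  have s44 : ∀ Z : KRing 5, Z.h 4 4 = Z.h 1 1 := fun Z => by
    have := h_dual Z 1 1
    norm_num at this
    exact this
  have s33 : ∀ Z : KRing 5, Z.h 3 3 = Z.h 2 2 := fun Z => by
    have := h_dual Z 2 2
    norm_num at this
    exact this
  rw [s51, s51] at d1
  rw [s42, s53, s42, s53, h20] at d2
  rw [s33, s44, s55, s33, s44, s55, X.h00, Y.h00] at d3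
  -- all but `h^{1,1}`, `h^{2,2}`
  have key : ∀ p q : ℕ, q ≤ p → p + q ≤ 5 → ¬ (p = q ∧ 1 ≤ p) → X.h p q = Y.h p q := by
    intro p q hqp hpq hne
    have hq : q ≤ 2 := by omega
    interval_cases q
    · have hp : p ≤ 5 := by omega
      interval_cases p
      · show X.h 0 0 = Y.h 0 0
        rw [X.h00, Y.h00]
      · exact h10
      · exact h20
      · exact b1
      · show X.h 4 0 = Y.h 4 0
        omega
      · show X.h 5 0 = Y.h 5 0
        omega
    · have hp : p ≤ 4 := by omega
      interval_cases p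
      · exact absurd ⟨rfl, le_refl _⟩ hne
      · exact c1
      · show X.h 3 1 = Y.h 3 1
        omega
      · show X.h 4 1 = Y.h 4 1
        omega
    · have hp : p ≤ 3 := by omega
      interval_cases p
      · exact absurd ⟨rfl, by norm_num⟩ hne
      · show X.h 3 2 = Y.h 3 2
        omega
  have key2 : ∀ p q : ℤ, p ≠ q → X.h p q = Y.h p q := by
    have h1 : ∀ p q : ℤ, q < p → p + q ≤ (5 : ℕ) → X.h p q = Y.h p q := by
      intro p q hqp hpq
      by_cases hneg : q < 0
      · rw [X.h_neg (Or.inr hneg), Y.h_neg (Or.inr hneg)]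
      · obtain ⟨a, ha⟩ := Int.eq_ofNat_of_zero_le (show 0 ≤ p by omega)
        obtain ⟨b, hb⟩ := Int.eq_ofNat_of_zero_le (show 0 ≤ q by omega)
        rw [ha, hb]
        exact key a b (by omega) (by omega) (by omega)
    have h2 : ∀ p q : ℤ, p ≠ q → p + q ≤ (5 : ℕ) → X.h p q = Y.h p q := by
      intro p q hne hpq
      by_cases hqp : q < p
      · exact h1 p q hqp hpq
      · rw [X.h_swap, Y.h_swap]
        exact h1 q p (by omega) (by omega)
    intro p q hne
    by_cases hpq : p + q ≤ (5 : ℕ)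
    · exact h2 p q hne hpq
    · rw [← h_dual X, ← h_dual Y]
      exact h2 _ _ (by omega) (by omega)
  -- the moment
  have hm2 : ∑ x ∈ box 5, ((x.1 + x.2).negOnePow : ℤ) *
      ((2 * x.1 - (5 : ℕ)) ^ 2 * ((X.h x.1 x.2 : ℤ) - Y.h x.1 x.2)) = 0 := by
    have : moment X - moment Y = 0 := by rw [hm, sub_self]
    unfold moment at this
    rw [← Finset.sum_sub_distrib] at this
    rw [← this]
    exact Finset.sum_congr rfl fun x _ => by ring
  let S : Finset (ℤ × ℤ) := {(1, 1), (2, 2), (3, 3), (4, 4)}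
  have hS : S ⊆ box 5 := by
    intro x hx
    simp only [S, Finset.mem_insert, Finset.mem_singleton] at hx
    unfold box
    rw [Finset.mem_product, Finset.mem_Icc, Finset.mem_Icc]
    rcases hx with rfl | rfl | rfl | rfl <;> norm_num
  rw [← Finset.sum_subset hS] at hm2
  · simp only [S] at hm2
    rw [Finset.sum_insert (by simp), Finset.sum_insert (by simp), Finset.sum_insert (by simp),
      Finset.sum_singleton] at hm2
    simp only at hm2
    rw [s33, s33, s44, s44] at hm2
    have n1 : (((1 : ℤ) + 1).negOnePow : ℤ) = 1 := by rw [Int.negOnePow_even _ ⟨1, rfl⟩]; rfl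
    have n2 : (((2 : ℤ) + 2).negOnePow : ℤ) = 1 := by rw [Int.negOnePow_even _ ⟨2, rfl⟩]; rfl
    have n3 : (((3 : ℤ) + 3).negOnePow : ℤ) = 1 := by rw [Int.negOnePow_even _ ⟨3, rfl⟩]; rfl
    have n4 : (((4 : ℤ) + 4).negOnePow : ℤ) = 1 := by rw [Int.negOnePow_even _ ⟨4, rfl⟩]; rfl
    rw [n1, n2, n3, n4] at hm2
    norm_num at hm2
    have h11 : X.h 1 1 = Y.h 1 1 := by omega
    have h22 : X.h 2 2 = Y.h 2 2 := by omega
    refine reduce (fun p q hqp hpq => ?_) p q
    by_cases hne : p = q ∧ 1 ≤ p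
    · obtain ⟨rfl, h1⟩ := hne
      have hp : p ≤ 2 := by omega
      interval_cases p
      · exact h11
      · exact h22
    · exact key p q hqp hpq hne
  · intro x hx hxS
    have h0 : (X.h x.1 x.2 : ℤ) - Y.h x.1 x.2 = 0 := by
      by_cases hne : x.1 = x.2
      · unfold box at hx
        rw [Finset.mem_product, Finset.mem_Icc, Finset.mem_Icc] at hx
        obtain ⟨a, b⟩ := x
        simp only at hne hx
        subst hne
        have h3 : a ≤ 5 := by exact_mod_cast hx.1.2
        have h4 := hx.1.1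
        simp only [S, Finset.mem_insert, Finset.mem_singleton, Prod.mk.injEq, and_self,
          not_or] at hxS
        have h5 : a = 0 ∨ a = 5 := by omega
        rcases h5 with rfl | rfl
        · simp [X.h00, Y.h00]
        · simp [s55, X.h00, Y.h00]
      · rw [key2 _ _ hne, sub_self]
    rw [h0]
    ring

/-- The class `ε K = - ε c₁`. -/
noncomputable def canon {n : ℕ} (X : KRing n) (ε : ℤ) : X.R := (-(ε : ℂ)) • X.c

theorem intertwines_canon {n : ℕ} {X Y : KRing n} {Φ : FM X Y} (hc : Intertwines Φ X.c Y.c)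
    (ε : ℤ) : Intertwines Φ (canon X ε) (canon Y ε) := by
  intro x
  unfold canon
  rw [smul_mul_assoc, map_smul, hc, smul_mul_assoc]

/-- **Main theorem.** -/
theorem fivefolds {X Y : KRing 5} {ε : ℤ} (hε : ε ≠ 0) (hX : Semipositive X (canon X ε))
    (hY : Semipositive Y (canon Y ε)) (Φ : FM X Y) (hc : Intertwines Φ X.c Y.c)
    {m : ℕ} (hm : m ≠ 0) (A : Sections X ε m) (B : Sections Y ε m)
    (hAB : ∀ k ∈ Finset.Icc 1 5, Nonempty (HH (A.D k) (B.D k)))
    (h1 : X.h 1 0 = Y.h 1 0 ∨ nullity X (canon X ε) 1 2 = nullity Y (canon Y ε) 1 2)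
    (h2 : nullity X (canon X ε) 2 1 = nullity Y (canon Y ε) 2 1)
    (p q : ℤ) : X.h p q = Y.h p q := by
  have hΦ := intertwines_canon hc ε
  refine five_all Φ ?_ ?_ (moment_inv Φ hε hm A B hAB) p q
  · rcases h1 with h1 | h1
    · exact h1
    · have e1 := rank_invariant hX hY hc hΦ (p := 1) (k := 2) (by norm_num)
      rw [← rank_add_nullity X (canon X ε) 1 2, ← rank_add_nullity Y (canon Y ε) 1 2, e1, h1]
  · have e1 := rank_invariant hX hY hc hΦ (p := 2) (k := 1) (by norm_num)
    rw [← rank_add_nullity X (canon X ε) 2 1, ← rank_add_nullity Y (canon Y ε) 2 1, e1, h2]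

end Pool.Agent.R929.DM
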